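import Pool.Agent.Helper28.HPV.FinalC
import Pool.Agent.Helper28.HPV.HarmTotal

/-!
# MP_23af14_pr, Q1: the harmonic measure at infinity of the hyperbolic Poisson Voronoi graph is
almost surely singular with respect to Lebesgue measure, for every intensity `lam > 0`.

The definitions of the objects (Voronoi cells, adjacency, Poisson process, simple random walk,
harmonic measure) are in `Pool/Agent/Helper28/HPV/MainDefs.lean`.
-/

namespace Pool.Agent.Results.MP_23af14_pr.HarmonicSingular

open MeasureTheory HPV

/-- Let `X` be a Poisson point process on the hyperbolic plane (Poincare disc) with intensity `lam`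
times hyperbolic area.  Almost surely the dual graph of its Voronoi tessellation has finite
non-zero degrees, and for every vertex `x₀` (in particular for the one whose cell contains `0`)
simple random walk from `x₀` exists, and for every realisation `Y` of it the harmonic measure at
infinity, the law of the limit of the walk in the unit circle, is singular with respect to
Lebesgue measure on the circle.  (Its total mass is the probability that the walk converges to a
point of the circle.) -/
theorem result (lam : ℝ) (hlam : 0 < lam) {Ω : Type*} [MeasurableSpace Ω] (P : Measure Ω)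
    (X : Ω → Set ℂ) (hX : IsPoissonProcess P X lam) :
    ∀ᵐ ω ∂P,
      (∀ x ∈ X ω, {y | VAdj (X ω) x y}.Finite ∧ {y | VAdj (X ω) x y}.Nonempty) ∧
      ∀ x₀ ∈ X ω,
        (∃ (Q : Measure (ℕ → ℂ)) (Y : ℕ → (ℕ → ℂ) → ℂ), IsSRW (X ω) x₀ Q Y) ∧
        ∀ (Ω' : Type) (_ : MeasurableSpace Ω') (Q : Measure Ω') (Y : ℕ → Ω' → ℂ),
          IsSRW (X ω) x₀ Q Y → (harmonicMeasure Q Y).MutuallySingular circ ∧
            harmonicMeasure Q Y Set.univ =
              Q {w | ∃ ξ : ℂ, ‖ξ‖ = 1 ∧ Filter.Tendsto (fun n => Y n w) Filter.atTop (nhds ξ)} := by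
  filter_upwards [HPV.main lam hlam P X hX] with ω h
  exact ⟨h.1, fun x₀ hx₀ => ⟨(h.2 x₀ hx₀).1, fun Ω' m Q Y hY =>
    ⟨(h.2 x₀ hx₀).2 Ω' m Q Y hY, HPV.harmonicMeasure_univ hY.meas⟩⟩⟩

end Pool.Agent.Results.MP_23af14_pr.HarmonicSingular
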